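import Mathlib

/-!
Closed cones in Banach spaces: bounded decomposition for generating closed cones, and integrals
of cone-valued functions.
-/

open Filter Topology MeasureTheory

namespace Pool.Agent.R853.GP

variable {X : Type*} [NormedAddCommGroup X] [NormedSpace ℝ X] [CompleteSpace X]

/-- Bounded decomposition with respect to a closed generating cone. -/
theorem bdd_decomp (P : Set X) (h0 : (0 : X) ∈ P) (hadd : ∀ x ∈ P, ∀ y ∈ P, x + y ∈ P)
    (hsmul : ∀ c : ℝ, 0 ≤ c → ∀ x ∈ P, c • x ∈ P) (hcl : IsClosed P)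
    (hgen : ∀ x : X, ∃ p ∈ P, ∃ q ∈ P, x = p - q) :
    ∃ M : ℝ, 0 < M ∧ ∀ x : X, ∃ p ∈ P, ∃ q ∈ P, x = p - q ∧ ‖p‖ ≤ M * ‖x‖ ∧ ‖q‖ ≤ M * ‖x‖ := by
  classical
  set ι := {p : X // p ∈ P ∧ ‖p‖ ≤ 1} with hι
  have hsum1 : ∀ c : lp (fun _ : ι => ℝ) 1, Summable fun i => ‖c i‖ := by
    intro c
    have := lp.memℓp c
    rw [memℓp_gen_iff (by norm_num)] at this
    simpa using this
  have hnorm1 : ∀ c : lp (fun _ : ι => ℝ) 1, ‖c‖ = ∑' i, ‖c i‖ := by
    intro c
    rw [lp.norm_eq_tsum_rpow (by norm_num)]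
    simp
  have hle : ∀ (a : ℝ) (i : ι), ‖a • (i : X)‖ ≤ ‖a‖ := by
    intro a i
    rw [norm_smul]
    exact mul_le_of_le_one_right (norm_nonneg _) i.2.2
  have hsum2 : ∀ c : lp (fun _ : ι => ℝ) 1, Summable fun i : ι => c i • (i : X) := fun c =>
    Summable.of_norm_bounded (hsum1 c) (fun i => hle _ _)
  set Φ₀ : lp (fun _ : ι => ℝ) 1 →ₗ[ℝ] X :=
    { toFun := fun c => ∑' i : ι, c i • (i : X)
      map_add' := fun a b => by
        rw [← (hsum2 a).tsum_add (hsum2 b)]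
        congr 1
        ext i
        rw [lp.coeFn_add, Pi.add_apply, add_smul]
      map_smul' := fun r a => by
        rw [RingHom.id_apply, ← (hsum2 a).tsum_const_smul]
        congr 1
        ext i
        rw [lp.coeFn_smul, Pi.smul_apply, smul_eq_mul, mul_smul] } with hΦ₀
  set Φ : lp (fun _ : ι => ℝ) 1 →L[ℝ] X := Φ₀.mkContinuous 1 (by
    intro c
    show ‖∑' i : ι, c i • (i : X)‖ ≤ 1 * ‖c‖
    rw [one_mul, hnorm1]
    refine (norm_tsum_le_tsum_norm ((hsum1 c).of_nonneg_of_le (fun i => norm_nonneg _)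
      (fun i => hle _ _))).trans ?_
    exact Summable.tsum_le_tsum (fun i => hle _ _) ((hsum1 c).of_nonneg_of_le
      (fun i => norm_nonneg _) (fun i => hle _ _)) (hsum1 c)) with hΦ
  have hΦa : ∀ c, Φ c = ∑' i : ι, c i • (i : X) := fun c => rfl
  have hsingle : ∀ (i : ι) (a : ℝ), Φ (lp.single 1 i a) = a • (i : X) := by
    intro i a
    rw [hΦa, tsum_eq_single i]
    · simp [lp.single_apply]
    · intro j hj
      simp [lp.single_apply, hj]
  have hunit : ∀ p ∈ P, ∃ i : ι, ‖p‖ • (i : X) = p := by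
    intro p hp
    have h1 : ‖p‖⁻¹ • p ∈ P := hsmul _ (inv_nonneg.2 (norm_nonneg _)) _ hp
    by_cases hp0 : p = 0
    · exact ⟨⟨0, h0, by simp⟩, by simp [hp0]⟩
    · refine ⟨⟨‖p‖⁻¹ • p, h1, ?_⟩, ?_⟩
      · rw [norm_smul, norm_inv, norm_norm, inv_mul_cancel₀ (norm_ne_zero_iff.2 hp0)]
      · simp [smul_smul, norm_ne_zero_iff.2 hp0]
  have hsurj : Function.Surjective Φ := by
    intro x
    obtain ⟨p, hp, q, hq, rfl⟩ := hgen x
    obtain ⟨i, hi⟩ := hunit p hp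
    obtain ⟨j, hj⟩ := hunit q hq
    refine ⟨lp.single 1 i ‖p‖ - lp.single 1 j ‖q‖, ?_⟩
    rw [map_sub, hsingle, hsingle, hi, hj]
  obtain ⟨C, hC0, hC⟩ := Φ.exists_preimage_norm_le hsurj
  refine ⟨C, hC0, fun x => ?_⟩
  obtain ⟨c, hc, hcn⟩ := hC x
  have hpos : ∀ g : ι → ℝ, (∀ i, 0 ≤ g i) → (∀ i, g i ≤ ‖c i‖) →
      Summable (fun i : ι => g i • (i : X)) ∧ (∑' i : ι, g i • (i : X)) ∈ P ∧
        ‖∑' i : ι, g i • (i : X)‖ ≤ C * ‖x‖ := by
    intro g hg hg'
    have hb : ∀ i : ι, ‖g i • (i : X)‖ ≤ ‖c i‖ := fun i =>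
      (hle _ _).trans (by rw [Real.norm_of_nonneg (hg i)]; exact hg' i)
    have hs : Summable (fun i : ι => g i • (i : X)) := Summable.of_norm_bounded (hsum1 c) hb
    refine ⟨hs, ?_, ?_⟩
    · refine hcl.mem_of_tendsto hs.hasSum (Eventually.of_forall fun s => ?_)
      induction s using Finset.induction_on with
      | empty => simpa using h0
      | insert a s ha ih =>
        rw [Finset.sum_insert ha]
        exact hadd _ (hsmul _ (hg a) _ a.2.1) _ ih
    · have hsn : Summable fun i : ι => ‖g i • (i : X)‖ :=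
        (hsum1 c).of_nonneg_of_le (fun i => norm_nonneg _) hb
      calc ‖∑' i : ι, g i • (i : X)‖ ≤ ∑' i : ι, ‖g i • (i : X)‖ := norm_tsum_le_tsum_norm hsn
        _ ≤ ∑' i : ι, ‖c i‖ := Summable.tsum_le_tsum hb hsn (hsum1 c)
        _ = ‖c‖ := (hnorm1 c).symm
        _ ≤ C * ‖x‖ := hcn
  obtain ⟨hs1, hp1, hn1⟩ := hpos (fun i => max (c i) 0) (fun i => le_max_right _ _)
    (fun i => max_le (le_abs_self _) (norm_nonneg _))
  obtain ⟨hs2, hp2, hn2⟩ := hpos (fun i => max (-c i) 0) (fun i => le_max_right _ _)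
    (fun i => max_le (neg_le_abs _) (norm_nonneg _))
  refine ⟨_, hp1, _, hp2, ?_, hn1, hn2⟩
  rw [← hs1.tsum_sub hs2, ← hc, hΦa]
  congr 1
  ext i
  rw [← sub_smul]
  congr 1
  rcases le_total 0 (c i) with h | h
  · rw [max_eq_left h, max_eq_right (by linarith)]; ring
  · rw [max_eq_right h, max_eq_left (by linarith)]; ring

/-- The integral of a function with values in a closed cone lies in the cone. -/
theorem integral_mem_cone (P : Set X) (h0 : (0 : X) ∈ P) (hadd : ∀ x ∈ P, ∀ y ∈ P, x + y ∈ P)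
    (hsmul : ∀ c : ℝ, 0 ≤ c → ∀ x ∈ P, c • x ∈ P) (hcl : IsClosed P)
    {α : Type*} [MeasurableSpace α] (μ : Measure α) (f : α → X) (hf : Integrable f μ)
    (hP : ∀ᵐ a ∂μ, f a ∈ P) : ∫ a, f a ∂μ ∈ P := by
  by_contra hcon
  have hconv : Convex ℝ P := by
    intro x hx y hy a b ha hb _
    exact hadd _ (hsmul a ha x hx) _ (hsmul b hb y hy)
  obtain ⟨φ, u, hu1, hu2⟩ := geometric_hahn_banach_closed_point hconv hcl hcon
  have hu0 : 0 < u := by
    have := hu1 0 h0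
    rwa [map_zero] at this
  have hφ : ∀ x ∈ P, φ x ≤ 0 := by
    intro x hx
    by_contra hlt
    push Not at hlt
    have h1 := hu1 ((u / φ x) • x) (hsmul _ (div_nonneg hu0.le hlt.le) x hx)
    rw [map_smul, smul_eq_mul, div_mul_cancel₀ _ hlt.ne'] at h1
    exact lt_irrefl _ h1
  have h1 : φ (∫ a, f a ∂μ) = ∫ a, φ (f a) ∂μ := (φ.integral_comp_comm hf).symm
  have h2 : ∫ a, φ (f a) ∂μ ≤ 0 :=
    integral_nonpos_of_ae (by filter_upwards [hP] with a ha using hφ _ ha)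
  linarith

end Pool.Agent.R853.GP
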