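import Pool.Agent.R853.GP.Group

/-!
Datko's argument: square integrability of the rescaled orbits contradicts the definition of the
growth bound.
-/

open Filter Topology MeasureTheory Set

namespace Pool.Agent.R853.GP

variable {K : Type*} [NormedAddCommGroup K] [NormedSpace ℂ K] [CompleteSpace K]
variable {T : ℝ → K →L[ℂ] K}

theorem datko (h : IsC0Group T) [Nontrivial K] {w : ℝ}
    (hw : Tendsto (fun t : ℝ => t⁻¹ * Real.log ‖T t‖) atTop (𝓝 w)) (E : ℝ) (hE0 : 0 ≤ E)
    (hE : ∀ (x : K) (N : ℝ), 0 ≤ N →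
      ∫ t in (0 : ℝ)..N, (Real.exp (-(w * t)) * ‖T t x‖) ^ 2 ≤ E * ‖x‖ ^ 2) : False := by
  obtain ⟨B₀, hB₀1, hB₀⟩ := h.bdd 1
  have hcont : ∀ x : K, Continuous fun t : ℝ => (Real.exp (-(w * t)) * ‖T t x‖) ^ 2 := by
    intro x
    have := h.cont x
    fun_prop
  set B : ℝ := Real.exp |w| * B₀ with hB
  have hB0 : 0 ≤ B := by positivity
  have hB1 : ∀ t, 0 ≤ t → t ≤ 1 → Real.exp (-(w * t)) * ‖T t‖ ≤ B := by
    intro t ht0 ht1
    rw [hB]
    have h1 : Real.exp (-(w * t)) ≤ Real.exp |w| := by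
      apply Real.exp_le_exp.2
      have h2 : -w ≤ |w| := neg_le_abs w
      have h3 : 0 ≤ |w| := abs_nonneg w
      nlinarith
    have h2 := hB₀ t (by rw [abs_of_nonneg ht0]; exact ht1)
    exact mul_le_mul h1 h2 (norm_nonneg _) (Real.exp_pos _).le
  -- splitting
  have hsplit : ∀ (r s : ℝ) (x : K) (G : ℝ), 0 ≤ G → 
      (∀ y : K, (Real.exp (-(w * s)) * ‖T s y‖) ^ 2 ≤ G * ‖y‖ ^ 2) →
      (Real.exp (-(w * (s + r))) * ‖T (s + r) x‖) ^ 2 ≤
        G * (Real.exp (-(w * r)) * ‖T r x‖) ^ 2 := by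
    intro r s x G hG hy
    have h1 := hy (T r x)
    rw [h.add_apply]
    have h2 : Real.exp (-(w * (s + r))) = Real.exp (-(w * s)) * Real.exp (-(w * r)) := by
      rw [← Real.exp_add]; congr 1; ring
    rw [h2]
    calc (Real.exp (-(w * s)) * Real.exp (-(w * r)) * ‖T s (T r x)‖) ^ 2
        = Real.exp (-(w * r)) ^ 2 * (Real.exp (-(w * s)) * ‖T s (T r x)‖) ^ 2 := by ring
      _ ≤ Real.exp (-(w * r)) ^ 2 * (G * ‖T r x‖ ^ 2) := by gcongr
      _ = _ := by ring
  have hsmall : ∀ s, 0 ≤ s → s ≤ 1 → ∀ y : K,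
      (Real.exp (-(w * s)) * ‖T s y‖) ^ 2 ≤ B ^ 2 * ‖y‖ ^ 2 := by
    intro s hs0 hs1 y
    have h1 : Real.exp (-(w * s)) * ‖T s y‖ ≤ B * ‖y‖ := by
      calc Real.exp (-(w * s)) * ‖T s y‖ ≤ Real.exp (-(w * s)) * (‖T s‖ * ‖y‖) := by
            gcongr
            exact (T s).le_opNorm y
        _ = Real.exp (-(w * s)) * ‖T s‖ * ‖y‖ := by ring
        _ ≤ B * ‖y‖ := by
            gcongr
            exact hB1 s hs0 hs1
    rw [← mul_pow]
    exact pow_le_pow_left₀ (by positivity) h1 2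
  set G : ℝ := B ^ 2 * (E + 1) with hG
  have hG0 : 0 ≤ G := by positivity
  have hall : ∀ t, 0 ≤ t → ∀ x : K,
      (Real.exp (-(w * t)) * ‖T t x‖) ^ 2 ≤ G * ‖x‖ ^ 2 := by
    intro t ht x
    rcases le_total t 1 with h1 | h1
    · refine (hsmall t ht h1 x).trans ?_
      rw [hG]
      have : 0 ≤ B ^ 2 * ‖x‖ ^ 2 := by positivity
      nlinarith
    · have h2 : ∫ r in (0 : ℝ)..1, (Real.exp (-(w * t)) * ‖T t x‖) ^ 2 ≤
          ∫ r in (0 : ℝ)..1, B ^ 2 * (Real.exp (-(w * (t - r))) * ‖T (t - r) x‖) ^ 2 := by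
        apply intervalIntegral.integral_mono_on (by norm_num)
        · exact continuous_const.intervalIntegrable _ _
        · exact (((hcont x).comp (continuous_const.sub continuous_id)).const_mul
            (B ^ 2)).intervalIntegrable _ _
        · intro r hr
          have h3 := hsplit (t - r) r x (B ^ 2) (by positivity) (hsmall r hr.1 hr.2)
          rw [add_sub_cancel] at h3
          exact h3
      rw [intervalIntegral.integral_const, sub_zero, one_smul,
        intervalIntegral.integral_const_mul] at h2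
      have h4 : ∫ r in (0 : ℝ)..1, (Real.exp (-(w * (t - r))) * ‖T (t - r) x‖) ^ 2 =
          ∫ u in (t - 1)..t, (Real.exp (-(w * u)) * ‖T u x‖) ^ 2 := by
        rw [intervalIntegral.integral_comp_sub_left
          (fun u => (Real.exp (-(w * u)) * ‖T u x‖) ^ 2) t, sub_zero]
      have h5 : ∫ u in (t - 1)..t, (Real.exp (-(w * u)) * ‖T u x‖) ^ 2 ≤
          ∫ u in (0 : ℝ)..t, (Real.exp (-(w * u)) * ‖T u x‖) ^ 2 := by
        apply intervalIntegral.integral_mono_interval (by linarith) (by linarith) le_rfl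
        · exact Eventually.of_forall fun u => by positivity
        · exact (hcont x).intervalIntegrable _ _
      have h6 := hE x t ht
      rw [h4] at h2
      calc (Real.exp (-(w * t)) * ‖T t x‖) ^ 2
          ≤ B ^ 2 * ∫ u in (t - 1)..t, (Real.exp (-(w * u)) * ‖T u x‖) ^ 2 := h2
        _ ≤ B ^ 2 * (E * ‖x‖ ^ 2) := by
            gcongr
            exact h5.trans h6
        _ ≤ G * ‖x‖ ^ 2 := by
            rw [hG]
            have : 0 ≤ B ^ 2 * ‖x‖ ^ 2 := by positivity
            nlinarith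
  set N : ℝ := 4 * (G * E + 1) with hN
  have hN0 : 0 < N := by positivity
  have hfin : ∀ x : K, (Real.exp (-(w * N)) * ‖T N x‖) ^ 2 ≤ (1 / 4) * ‖x‖ ^ 2 := by
    intro x
    have h1 : ∫ r in (0 : ℝ)..N, (Real.exp (-(w * N)) * ‖T N x‖) ^ 2 ≤
        ∫ r in (0 : ℝ)..N, G * (Real.exp (-(w * r)) * ‖T r x‖) ^ 2 := by
      apply intervalIntegral.integral_mono_on hN0.le
      · exact continuous_const.intervalIntegrable _ _
      · exact ((hcont x).const_mul G).intervalIntegrable _ _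
      · intro r hr
        have h3 := hsplit r (N - r) x G hG0 (hall (N - r) (by linarith [hr.2]))
        rw [sub_add_cancel] at h3
        exact h3
    rw [intervalIntegral.integral_const, sub_zero, smul_eq_mul,
      intervalIntegral.integral_const_mul] at h1
    have h2 := hE x N hN0.le
    have h3 : N * (Real.exp (-(w * N)) * ‖T N x‖) ^ 2 ≤ G * (E * ‖x‖ ^ 2) :=
      h1.trans (by gcongr)
    have h4 : N * (Real.exp (-(w * N)) * ‖T N x‖) ^ 2 ≤ N * ((1 / 4) * ‖x‖ ^ 2) := by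
      refine h3.trans ?_
      rw [hN]
      have : 0 ≤ ‖x‖ ^ 2 := by positivity
      nlinarith
    exact le_of_mul_le_mul_left h4 hN0
  have hhalf : ‖T N‖ ≤ (1 / 2) * Real.exp (w * N) := by
    refine (T N).opNorm_le_bound (by positivity) fun x => ?_
    have h1 := hfin x
    have h2 : Real.exp (-(w * N)) * ‖T N x‖ ≤ (1 / 2) * ‖x‖ := by
      have h3 : (Real.exp (-(w * N)) * ‖T N x‖) ^ 2 ≤ ((1 / 2) * ‖x‖) ^ 2 := by
        refine h1.trans (le_of_eq ?_)
        ring
      exact (pow_le_pow_iff_left₀ (by positivity) (by positivity) (by norm_num)).1 h3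
    calc ‖T N x‖ = Real.exp (w * N) * (Real.exp (-(w * N)) * ‖T N x‖) := by
          rw [← mul_assoc, ← Real.exp_add, add_neg_cancel, Real.exp_zero, one_mul]
      _ ≤ Real.exp (w * N) * ((1 / 2) * ‖x‖) := by gcongr
      _ = _ := by ring
  have hlow := h.lower hw N hN0
  have := Real.exp_pos (w * N)
  linarith

end Pool.Agent.R853.GP
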