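import Mathlib

/-!
Plancherel's theorem for integrable and square integrable functions on the line with values in a
Hilbert space.
-/

open MeasureTheory Filter Topology

namespace Pool.Agent.R853.GP

variable {K : Type*} [NormedAddCommGroup K] [InnerProductSpace ℂ K] [CompleteSpace K]

open scoped FourierTransform SchwartzMap ContDiff in
theorem planch (f : ℝ → K) (hf : Integrable f) (hf2 : MemLp f 2) :
    ∫⁻ ξ : ℝ, ‖FourierTransform.fourier f ξ‖ₑ ^ 2 = ∫⁻ z : ℝ, ‖f z‖ₑ ^ 2 := by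
  obtain ⟨F2, hF2⟩ : ∃ F2 : Lp K 2 (volume : Measure ℝ), F2 = hf2.toLp f := ⟨_, rfl⟩
  obtain ⟨G, hG⟩ : ∃ G : Lp K 2 (volume : Measure ℝ), G = 𝓕 F2 := ⟨_, rfl⟩
  have hF2ae : (F2 : ℝ → K) =ᵐ[volume] f := by rw [hF2]; exact hf2.coeFn_toLp
  have key : ∀ g : 𝓢(ℝ, ℂ), ∫ x, g x • (G x) = ∫ x, g x • FourierTransform.fourier f x := by
    intro g
    have h1 : (𝓕 (F2 : 𝓢'(ℝ, K))) g = ((𝓕 F2 : Lp K 2 (volume : Measure ℝ)) : 𝓢'(ℝ, K)) g := by
      rw [Lp.fourier_toTemperedDistribution_eq]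
    rw [TemperedDistribution.fourier_apply, Lp.toTemperedDistribution_apply,
      Lp.toTemperedDistribution_apply, ← hG] at h1
    rw [← h1]
    have h2 : ∫ x, (𝓕 g) x • F2 x = ∫ x, (𝓕 g) x • f x := by
      apply integral_congr_ae
      filter_upwards [hF2ae] with x hx
      rw [hx]
    rw [h2]
    have h3 := VectorFourier.integral_fourierIntegral_smul_eq_flip (L := innerₗ ℝ)
      (μ := (volume : Measure ℝ)) (ν := (volume : Measure ℝ))
      Real.continuous_fourierChar continuous_inner g.integrable hf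
    rw [flip_innerₗ] at h3
    exact h3
  have hGae : (G : ℝ → K) =ᵐ[volume] FourierTransform.fourier f := by
    have hcont : Continuous (FourierTransform.fourier f : ℝ → K) :=
      VectorFourier.fourierIntegral_continuous Real.continuous_fourierChar continuous_inner hf
    apply ae_eq_of_integral_contDiff_smul_eq
    · exact (Lp.memLp G).locallyIntegrable (by norm_num)
    · exact hcont.locallyIntegrable
    · intro g g_smooth g_cpt
      have hg₁ : HasCompactSupport (Complex.ofRealCLM ∘ g) := g_cpt.comp_left rfl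
      have hg₂ : ContDiff ℝ ∞ (Complex.ofRealCLM ∘ g) := by fun_prop
      have := key (hg₁.toSchwartzMap hg₂)
      simpa using this
  have hnorm : eLpNorm G 2 volume = eLpNorm f 2 volume := by
    have h1 : ‖G‖ = ‖F2‖ := by rw [hG]; exact Lp.norm_fourier_eq F2
    have h2 : eLpNorm G 2 volume = eLpNorm F2 2 volume := by
      rw [Lp.norm_def, Lp.norm_def] at h1
      exact (ENNReal.toReal_eq_toReal_iff' (Lp.eLpNorm_ne_top G) (Lp.eLpNorm_ne_top F2)).1 h1
    rw [h2]
    exact eLpNorm_congr_ae hF2ae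
  have h2 : ∀ h : ℝ → K, eLpNorm h 2 volume ^ 2 = ∫⁻ z : ℝ, ‖h z‖ₑ ^ 2 := by
    intro h
    rw [eLpNorm_eq_lintegral_rpow_enorm_toReal (by norm_num) (by norm_num)]
    simp only [ENNReal.toReal_ofNat, ENNReal.rpow_ofNat, one_div]
    rw [← ENNReal.rpow_natCast, ← ENNReal.rpow_mul]
    norm_num
  rw [← h2, ← h2, ← hnorm, eLpNorm_congr_ae hGae]

end Pool.Agent.R853.GP
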