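import Pool.Agent.R853.GP.Laplace
import Pool.Agent.R853.GP.Planch

/-!
Comparison of weighted square norms of orbits through resolvent bounds (Plancherel).
-/

open Filter Topology MeasureTheory Set
open scoped ENNReal

namespace Pool.Agent.R853.GP

variable {K : Type*} [NormedAddCommGroup K] [InnerProductSpace ℂ K]
variable {T : ℝ → K →L[ℂ] K}

/-- The truncated weighted orbit. -/
noncomputable def orb (T : ℝ → K →L[ℂ] K) (a : ℝ) (x : K) : ℝ → K :=
  (Ioi (0 : ℝ)).indicator fun t : ℝ => Complex.exp (-((a : ℂ) * t)) • T t x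

lemma orb_integrable (h : IsC0Group T) (M v : ℝ)
    (hM : ∀ t, 0 ≤ t → ‖T t‖ ≤ M * Real.exp (v * t)) (a : ℝ) (ha : v < a) (x : K) :
    Integrable (orb T a x) := by
  unfold orb
  rw [integrable_indicator_iff measurableSet_Ioi]
  exact lap_integrable h M v hM a (by simpa using ha) x

lemma orb_norm (a : ℝ) (x : K) (t : ℝ) (ht : 0 < t) :
    ‖orb T a x t‖ = Real.exp (-(a * t)) * ‖T t x‖ := by
  unfold orb
  rw [indicator_of_mem (show t ∈ Ioi (0 : ℝ) from ht), norm_smul, norm_cexp]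
  simp

lemma orb_sq_le (M v : ℝ)
    (hM : ∀ t, 0 ≤ t → ‖T t‖ ≤ M * Real.exp (v * t)) (a : ℝ) (x : K) (t : ℝ) :
    ‖orb T a x t‖ ^ 2 ≤ (Ioi (0 : ℝ)).indicator
      (fun t => (M * ‖x‖) ^ 2 * Real.exp (-(2 * (a - v)) * t)) t := by
  by_cases ht : t ∈ Ioi (0 : ℝ)
  · have h1 := lap_bound M v hM (a : ℂ) x t (le_of_lt ht)
    rw [indicator_of_mem ht]
    unfold orb
    rw [indicator_of_mem ht]
    calc ‖Complex.exp (-((a : ℂ) * t)) • T t x‖ ^ 2
        ≤ (M * ‖x‖ * Real.exp (-((a : ℂ).re - v) * t)) ^ 2 :=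
          pow_le_pow_left₀ (norm_nonneg _) h1 2
      _ = _ := by
        rw [mul_pow, ← Real.exp_nat_mul]
        congr 2
        simp
        ring
  · unfold orb
    rw [indicator_of_notMem ht, indicator_of_notMem ht]
    simp

omit [InnerProductSpace ℂ K] in
lemma exp_sq_integrable (M v a : ℝ) (ha : v < a) (x : K) :
    Integrable ((Ioi (0 : ℝ)).indicator
      (fun t => (M * ‖x‖) ^ 2 * Real.exp (-(2 * (a - v)) * t))) := by
  rw [integrable_indicator_iff measurableSet_Ioi]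
  exact (exp_neg_integrableOn_Ioi 0 (by linarith)).const_mul _

lemma orb_sq_integrable (h : IsC0Group T) (M v : ℝ)
    (hM : ∀ t, 0 ≤ t → ‖T t‖ ≤ M * Real.exp (v * t)) (a : ℝ) (ha : v < a) (x : K) :
    Integrable (fun t => ‖orb T a x t‖ ^ 2) := by
  refine Integrable.mono' (exp_sq_integrable M v a ha x)
    ((orb_integrable h M v hM a ha x).aestronglyMeasurable.norm.pow 2) ?_
  refine Eventually.of_forall fun t => ?_
  rw [Real.norm_of_nonneg (by positivity)]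
  exact orb_sq_le M v hM a x t

lemma orb_memLp (h : IsC0Group T) (M v : ℝ)
    (hM : ∀ t, 0 ≤ t → ‖T t‖ ≤ M * Real.exp (v * t)) (a : ℝ) (ha : v < a) (x : K) :
    MemLp (orb T a x) 2 := by
  rw [memLp_two_iff_integrable_sq_norm (orb_integrable h M v hM a ha x).aestronglyMeasurable]
  exact orb_sq_integrable h M v hM a ha x

lemma orb_fourier (a : ℝ) (x : K) (ξ : ℝ) :
    FourierTransform.fourier (orb T a x) ξ =
      ∫ t in Ioi (0 : ℝ), Complex.exp (-(((a : ℂ) + (2 * Real.pi * ξ : ℝ) * Complex.I) * t)) •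
        T t x := by
  rw [Real.fourier_real_eq_integral_exp_smul, ← integral_indicator measurableSet_Ioi]
  congr 1
  ext t
  unfold orb
  by_cases ht : t ∈ Ioi (0 : ℝ)
  · rw [indicator_of_mem ht, indicator_of_mem ht, smul_smul, ← Complex.exp_add]
    congr 2
    push_cast
    ring
  · rw [indicator_of_notMem ht, indicator_of_notMem ht, smul_zero]

variable [CompleteSpace K]

lemma energy_le (h : IsC0Group T) (M v : ℝ)
    (hM : ∀ t, 0 ≤ t → ‖T t‖ ≤ M * Real.exp (v * t)) (a w : ℝ) (ha : v < a) (hw : v < w)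
    (C : ℝ) (x : K)
    (hC : ∀ b : ℝ, ‖∫ t in Ioi (0 : ℝ), Complex.exp (-(((a : ℂ) + (b : ℝ) * Complex.I) * t)) •
        T t x‖ ≤ C * ‖∫ t in Ioi (0 : ℝ), Complex.exp (-(((w : ℂ) + (b : ℝ) * Complex.I) * t)) •
        T t x‖) :
    ∫⁻ t, ‖orb T a x t‖ₑ ^ 2 ≤ ENNReal.ofReal (C ^ 2) * ∫⁻ t, ‖orb T w x t‖ₑ ^ 2 := by
  rw [← planch _ (orb_integrable h M v hM a ha x) (orb_memLp h M v hM a ha x),
    ← planch _ (orb_integrable h M v hM w hw x) (orb_memLp h M v hM w hw x),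
    ← lintegral_const_mul' _ _ ENNReal.ofReal_ne_top]
  refine lintegral_mono fun ξ => ?_
  have h1 := hC (2 * Real.pi * ξ)
  rw [← orb_fourier, ← orb_fourier] at h1
  have h2 : ‖FourierTransform.fourier (orb T a x) ξ‖ ^ 2 ≤
      C ^ 2 * ‖FourierTransform.fourier (orb T w x) ξ‖ ^ 2 := by
    rw [← mul_pow]
    exact pow_le_pow_left₀ (norm_nonneg _) h1 2
  have h3 : ∀ z : K, ‖z‖ₑ ^ 2 = ENNReal.ofReal (‖z‖ ^ 2) := by
    intro z
    rw [ENNReal.ofReal_pow (norm_nonneg _), ofReal_norm]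
  show ‖FourierTransform.fourier (orb T a x) ξ‖ₑ ^ 2 ≤
    ENNReal.ofReal (C ^ 2) * ‖FourierTransform.fourier (orb T w x) ξ‖ₑ ^ 2
  rw [h3, h3, ← ENNReal.ofReal_mul (by positivity)]
  exact ENNReal.ofReal_le_ofReal h2

/-- Real form of the energy estimate. -/
theorem energy (h : IsC0Group T) (M v : ℝ)
    (hM : ∀ t, 0 ≤ t → ‖T t‖ ≤ M * Real.exp (v * t)) (w : ℝ) (hw : v < w) :
    ∃ D : ℝ, 0 < D ∧ ∀ (M' v' : ℝ), (∀ t, 0 ≤ t → ‖T t‖ ≤ M' * Real.exp (v' * t)) →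
      ∀ (a : ℝ) (C : ℝ), v' < a → v' < w → ∀ x : K,
      (∀ b : ℝ, ‖∫ t in Ioi (0 : ℝ), Complex.exp (-(((a : ℂ) + (b : ℝ) * Complex.I) * t)) •
        T t x‖ ≤ C * ‖∫ t in Ioi (0 : ℝ), Complex.exp (-(((w : ℂ) + (b : ℝ) * Complex.I) * t)) •
        T t x‖) →
      ∀ N : ℝ, 0 ≤ N → ∫ t in (0 : ℝ)..N, (Real.exp (-(a * t)) * ‖T t x‖) ^ 2 ≤
        C ^ 2 * D * ‖x‖ ^ 2 := by
  set J : ℝ := ∫ t in Ioi (0 : ℝ), Real.exp (-(2 * (w - v)) * t) with hJ
  have hJ0 : 0 ≤ J := integral_nonneg fun t => (Real.exp_pos _).le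
  refine ⟨M ^ 2 * J + 1, by positivity, fun M' v' hM' a C ha hw' x hC N hN => ?_⟩
  have h1 := energy_le h M' v' hM' a w ha hw' C x hC
  have hofR : ∀ z : K, ‖z‖ₑ ^ 2 = ENNReal.ofReal (‖z‖ ^ 2) := by
    intro z
    rw [ENNReal.ofReal_pow (norm_nonneg _), ofReal_norm]
  have h2 : ∫⁻ t, ‖orb T w x t‖ₑ ^ 2 ≤ ENNReal.ofReal ((M * ‖x‖) ^ 2 * J) := by
    have h3 : (M * ‖x‖) ^ 2 * J = ∫ t, (Ioi (0 : ℝ)).indicator
        (fun t => (M * ‖x‖) ^ 2 * Real.exp (-(2 * (w - v)) * t)) t := by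
      rw [integral_indicator measurableSet_Ioi, hJ, ← integral_const_mul]
    rw [h3, ofReal_integral_eq_lintegral_ofReal (exp_sq_integrable M v w hw x)
      (Eventually.of_forall fun t => indicator_nonneg (fun t _ => by positivity) t)]
    refine lintegral_mono fun t => ?_
    show ‖orb T w x t‖ₑ ^ 2 ≤ _
    rw [hofR]
    exact ENNReal.ofReal_le_ofReal (orb_sq_le M v hM w x t)
  have h4 : ∫⁻ t, ‖orb T a x t‖ₑ ^ 2 ≤ ENNReal.ofReal (C ^ 2 * (M ^ 2 * J + 1) * ‖x‖ ^ 2) := by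
    refine h1.trans ((mul_le_mul_right h2 _).trans ?_)
    rw [← ENNReal.ofReal_mul (by positivity)]
    apply ENNReal.ofReal_le_ofReal
    have : 0 ≤ C ^ 2 * ‖x‖ ^ 2 := by positivity
    nlinarith
  have hcont : Continuous fun t : ℝ => (Real.exp (-(a * t)) * ‖T t x‖) ^ 2 := by
    have := h.cont x
    fun_prop
  rw [intervalIntegral.integral_of_le hN, integral_eq_lintegral_of_nonneg_ae
    (Eventually.of_forall fun t => by positivity) hcont.aestronglyMeasurable]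
  refine ENNReal.toReal_le_of_le_ofReal (by positivity) ?_
  refine le_trans ?_ h4
  refine le_trans ?_ (setLIntegral_le_lintegral (Ioc 0 N) _)
  refine lintegral_mono_ae ?_
  filter_upwards [ae_restrict_mem measurableSet_Ioc] with t ht
  rw [hofR, orb_norm a x t ht.1]

end Pool.Agent.R853.GP
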