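import Mathlib

/-!
Strongly continuous groups: growth bound.
-/

open Filter Topology MeasureTheory

namespace Pool.Agent.R853.GP

variable {K : Type*} [NormedAddCommGroup K] [NormedSpace ℂ K]

/-- A strongly continuous one-parameter group of bounded operators. -/
structure IsC0Group (T : ℝ → K →L[ℂ] K) : Prop where
  zero : T 0 = 1
  add : ∀ s t, T (s + t) = T s * T t
  cont : ∀ x, Continuous fun t => T t x

section growth

variable {T : ℝ → K →L[ℂ] K}

lemma IsC0Group.add_apply (h : IsC0Group T) (s t : ℝ) (x : K) : T (s + t) x = T s (T t x) := by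
  rw [h.add]; rfl

lemma IsC0Group.one_le (h : IsC0Group T) [Nontrivial K] (t : ℝ) : 1 ≤ ‖T t‖ * ‖T (-t)‖ := by
  have h1 : T t * T (-t) = 1 := by rw [← h.add, add_neg_cancel, h.zero]
  calc (1 : ℝ) = ‖(1 : K →L[ℂ] K)‖ := (norm_one).symm
    _ = ‖T t * T (-t)‖ := by rw [h1]
    _ ≤ _ := norm_mul_le _ _

lemma IsC0Group.norm_pos (h : IsC0Group T) [Nontrivial K] (t : ℝ) : 0 < ‖T t‖ := by
  have := h.one_le t
  by_contra hcon
  have h0 : ‖T t‖ = 0 := le_antisymm (not_lt.1 hcon) (norm_nonneg _)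
  rw [h0, zero_mul] at this
  linarith

variable [CompleteSpace K]

lemma IsC0Group.bdd (h : IsC0Group T) (N : ℝ) : ∃ M : ℝ, 1 ≤ M ∧ ∀ t, |t| ≤ N → ‖T t‖ ≤ M := by
  obtain ⟨C, hC⟩ := banach_steinhaus (g := fun t : Set.Icc (-N) N => T t) (by
    intro x
    obtain ⟨C, hC⟩ := isCompact_Icc.exists_bound_of_continuousOn (s := Set.Icc (-N) N)
      (h.cont x).continuousOn
    exact ⟨C, fun i => hC i i.2⟩)
  refine ⟨max C 1, le_max_right _ _, fun t ht => ?_⟩
  exact (hC ⟨t, abs_le.1 ht⟩).trans (le_max_left _ _)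

/-- Existence of the growth bound as a limit, together with the two bounds for the norm. -/
theorem IsC0Group.growth (h : IsC0Group T) [Nontrivial K] :
    ∃ w : ℝ, Tendsto (fun t : ℝ => t⁻¹ * Real.log ‖T t‖) atTop (𝓝 w) := by
  set L : ℝ → ℝ := fun t => Real.log ‖T t‖ with hL
  have hsub : ∀ s t, L (s + t) ≤ L s + L t := by
    intro s t
    rw [hL]
    show Real.log ‖T (s + t)‖ ≤ Real.log ‖T s‖ + Real.log ‖T t‖
    rw [← Real.log_mul (h.norm_pos s).ne' (h.norm_pos t).ne']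
    apply Real.log_le_log (h.norm_pos _)
    rw [h.add]
    exact norm_mul_le _ _
  have hL0 : 0 ≤ L 0 := by
    have := hsub 0 0
    rw [add_zero] at this
    linarith
  have hneg : ∀ n : ℕ, L (-(n : ℝ)) ≤ L 0 + n * L (-1) := by
    intro n
    induction n with
    | zero => simp
    | succ n ih =>
      have h1 : (-((n + 1 : ℕ) : ℝ)) = -(n : ℝ) + -1 := by push_cast; ring
      rw [h1]
      have h2 := hsub (-(n : ℝ)) (-1)
      push_cast
      linarith
  obtain ⟨M, hM1, hM⟩ := h.bdd 1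
  set b := Real.log M with hb
  have hb0 : 0 ≤ b := Real.log_nonneg hM1
  have hbL : ∀ t, |t| ≤ 1 → L t ≤ b := fun t ht => Real.log_le_log (h.norm_pos t) (hM t ht)
  have hS : Subadditive (fun n : ℕ => L n) := by
    intro m n
    have := hsub m n
    push_cast
    exact this
  have hbdd : BddBelow (Set.range fun n : ℕ => L n / n) := by
    refine ⟨min (-(L (-1)) - L 0) 0, ?_⟩
    rintro _ ⟨n, rfl⟩
    rcases Nat.eq_zero_or_pos n with rfl | hn
    · simp
    · refine (min_le_left _ _).trans ?_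
      have hn' : (1 : ℝ) ≤ n := by exact_mod_cast hn
      show -(L (-1)) - L 0 ≤ L n / n
      rw [le_div_iff₀ (by linarith)]
      have h1 := hsub (n : ℝ) (-(n : ℝ))
      rw [add_neg_cancel] at h1
      have h2 := hneg n
      nlinarith
  have hlim := hS.tendsto_lim hbdd
  refine ⟨hS.lim, ?_⟩
  have hf1 : Tendsto (fun t : ℝ => ((⌊t⌋₊ : ℕ) : ℝ) / t) atTop (𝓝 1) := tendsto_nat_floor_div_atTop
  have hf2 : Tendsto (fun t : ℝ => L (⌊t⌋₊ : ℕ) / (⌊t⌋₊ : ℕ)) atTop (𝓝 hS.lim) :=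
    hlim.comp tendsto_nat_floor_atTop
  have hf3 : Tendsto (fun t : ℝ => L (⌊t⌋₊ : ℕ) / t) atTop (𝓝 hS.lim) := by
    have h1 := hf2.mul hf1
    rw [mul_one] at h1
    refine h1.congr' ?_
    filter_upwards [eventually_ge_atTop (1 : ℝ)] with t ht
    have hfl : (0 : ℝ) < ((⌊t⌋₊ : ℕ) : ℝ) := by exact_mod_cast Nat.floor_pos.2 ht
    field_simp
  have hinv : Tendsto (fun t : ℝ => b / t) atTop (𝓝 0) := tendsto_const_nhds.div_atTop tendsto_id
  have hlo := hf3.sub hinv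
  have hhi := hf3.add hinv
  rw [sub_zero] at hlo
  rw [add_zero] at hhi
  refine tendsto_of_tendsto_of_tendsto_of_le_of_le' hlo hhi ?_ ?_
  · filter_upwards [eventually_ge_atTop (1 : ℝ)] with t ht
    have ht0 : 0 < t := by linarith
    have hr0 : 0 ≤ t - (⌊t⌋₊ : ℕ) := sub_nonneg.2 (Nat.floor_le ht0.le)
    have hr1 : t - (⌊t⌋₊ : ℕ) ≤ 1 := by linarith [Nat.lt_floor_add_one t]
    have h1 := hsub t (-(t - (⌊t⌋₊ : ℕ)))
    have h2 := hbL (-(t - (⌊t⌋₊ : ℕ))) (by rw [abs_neg, abs_of_nonneg hr0]; exact hr1)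
    have h3 : t + -(t - ((⌊t⌋₊ : ℕ) : ℝ)) = (⌊t⌋₊ : ℕ) := by ring
    rw [h3] at h1
    rw [← sub_div, inv_mul_eq_div]
    exact div_le_div_of_nonneg_right (by show L _ - b ≤ L t; linarith) ht0.le
  · filter_upwards [eventually_ge_atTop (1 : ℝ)] with t ht
    have ht0 : 0 < t := by linarith
    have hr0 : 0 ≤ t - (⌊t⌋₊ : ℕ) := sub_nonneg.2 (Nat.floor_le ht0.le)
    have hr1 : t - (⌊t⌋₊ : ℕ) ≤ 1 := by linarith [Nat.lt_floor_add_one t]
    have h1 := hsub (⌊t⌋₊ : ℕ) (t - (⌊t⌋₊ : ℕ))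
    have h2 := hbL (t - (⌊t⌋₊ : ℕ)) (by rw [abs_of_nonneg hr0]; exact hr1)
    have h3 : ((⌊t⌋₊ : ℕ) : ℝ) + (t - ((⌊t⌋₊ : ℕ) : ℝ)) = t := by ring
    rw [h3] at h1
    rw [← add_div, inv_mul_eq_div]
    exact div_le_div_of_nonneg_right (by show L t ≤ L _ + b; linarith) ht0.le

/-- Upper exponential bounds. -/
theorem IsC0Group.upper (h : IsC0Group T) [Nontrivial K] {w : ℝ}
    (hw : Tendsto (fun t : ℝ => t⁻¹ * Real.log ‖T t‖) atTop (𝓝 w)) {v : ℝ} (hv : w < v) :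
    ∃ M : ℝ, 0 < M ∧ ∀ t, 0 ≤ t → ‖T t‖ ≤ M * Real.exp (v * t) := by
  have h1 := hw.eventually_lt_const hv
  rw [eventually_atTop] at h1
  obtain ⟨N, hN⟩ := h1
  obtain ⟨M, hM1, hM⟩ := h.bdd (max N 1)
  have hexp : ∀ t, 0 ≤ t → t ≤ max N 1 → Real.exp (-(|v| * max N 1)) ≤ Real.exp (v * t) := by
    intro t ht0 ht
    apply Real.exp_le_exp.2
    have h2 : -|v| ≤ v := neg_abs_le v
    have h3 : 0 ≤ |v| := abs_nonneg v
    nlinarith
  refine ⟨M * Real.exp (|v| * max N 1), by positivity, fun t ht => ?_⟩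
  by_cases hc : t ≤ max N 1
  · have h2 := hM t (by rw [abs_of_nonneg ht]; exact hc)
    have h3 := hexp t ht hc
    calc ‖T t‖ ≤ M := h2
      _ = M * (Real.exp (|v| * max N 1) * Real.exp (-(|v| * max N 1))) := by
        rw [← Real.exp_add, add_neg_cancel, Real.exp_zero, mul_one]
      _ ≤ M * (Real.exp (|v| * max N 1) * Real.exp (v * t)) := by gcongr
      _ = _ := by ring
  · push Not at hc
    have ht1 : 0 < t := lt_of_lt_of_le one_pos ((le_max_right _ _).trans hc.le)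
    have h2 := hN t ((le_max_left _ _).trans hc.le)
    have h3 : Real.log ‖T t‖ < v * t := by
      have := mul_lt_mul_of_pos_left h2 ht1
      rw [← mul_assoc, mul_inv_cancel₀ ht1.ne', one_mul] at this
      linarith
    have h4 : ‖T t‖ ≤ Real.exp (v * t) := by
      rw [← Real.exp_log (h.norm_pos t)]
      exact Real.exp_le_exp.2 h3.le
    have h5 : 1 ≤ M * Real.exp (|v| * max N 1) := by
      have : 1 ≤ Real.exp (|v| * max N 1) := Real.one_le_exp (by positivity)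
      nlinarith
    calc ‖T t‖ ≤ 1 * Real.exp (v * t) := by rw [one_mul]; exact h4
      _ ≤ _ := by gcongr

omit [CompleteSpace K] in
/-- The lower bound for the norm. -/
theorem IsC0Group.lower (h : IsC0Group T) [Nontrivial K] {w : ℝ}
    (hw : Tendsto (fun t : ℝ => t⁻¹ * Real.log ‖T t‖) atTop (𝓝 w)) (t : ℝ) (ht : 0 < t) :
    Real.exp (w * t) ≤ ‖T t‖ := by
  have hpow : ∀ n : ℕ, ‖T ((n : ℝ) * t)‖ ≤ ‖T t‖ ^ n * ‖T 0‖ := by
    intro n
    induction n with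
    | zero => simp
    | succ n ih =>
      have h1 : ((n + 1 : ℕ) : ℝ) * t = t + (n : ℝ) * t := by push_cast; ring
      rw [h1, h.add, pow_succ]
      calc ‖T t * T ((n : ℝ) * t)‖ ≤ ‖T t‖ * ‖T ((n : ℝ) * t)‖ := norm_mul_le _ _
        _ ≤ ‖T t‖ * (‖T t‖ ^ n * ‖T 0‖) := by gcongr
        _ = _ := by ring
  have hseq : Tendsto (fun n : ℕ => ((n : ℝ) * t)⁻¹ * Real.log ‖T ((n : ℝ) * t)‖) atTop (𝓝 w) :=
    hw.comp (tendsto_natCast_atTop_atTop.atTop_mul_const ht)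
  have hle : ∀ᶠ n : ℕ in atTop, ((n : ℝ) * t)⁻¹ * Real.log ‖T ((n : ℝ) * t)‖ ≤
      t⁻¹ * Real.log ‖T t‖ + (Real.log ‖T 0‖ / t) / n := by
    filter_upwards [eventually_ge_atTop 1] with n hn
    have hn' : (0 : ℝ) < n := by exact_mod_cast hn
    have h1 : Real.log ‖T ((n : ℝ) * t)‖ ≤ n * Real.log ‖T t‖ + Real.log ‖T 0‖ := by
      have := Real.log_le_log (h.norm_pos _) (hpow n)
      rw [Real.log_mul (pow_ne_zero _ (h.norm_pos t).ne') (h.norm_pos 0).ne', Real.log_pow] at this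
      exact this
    calc ((n : ℝ) * t)⁻¹ * Real.log ‖T ((n : ℝ) * t)‖
        ≤ ((n : ℝ) * t)⁻¹ * (n * Real.log ‖T t‖ + Real.log ‖T 0‖) := by gcongr
      _ = _ := by field_simp
  have hlim : Tendsto (fun n : ℕ => t⁻¹ * Real.log ‖T t‖ + (Real.log ‖T 0‖ / t) / n) atTop
      (𝓝 (t⁻¹ * Real.log ‖T t‖ + 0)) :=
    tendsto_const_nhds.add (tendsto_const_div_atTop_nhds_zero_nat _)
  rw [add_zero] at hlim
  have h2 : w ≤ t⁻¹ * Real.log ‖T t‖ := le_of_tendsto_of_tendsto hseq hlim hle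
  rw [← Real.exp_log (h.norm_pos t)]
  apply Real.exp_le_exp.2
  have := mul_le_mul_of_nonneg_left h2 ht.le
  rw [← mul_assoc, mul_inv_cancel₀ ht.ne', one_mul] at this
  linarith

end growth

end Pool.Agent.R853.GP
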