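import Pool.Agent.R853.GP.Group

/-!
The generator, its resolvent, and the Laplace transform of a strongly continuous group.
-/

open Filter Topology MeasureTheory Set

namespace Pool.Agent.R853.GP

variable {K : Type*} [NormedAddCommGroup K] [NormedSpace ℂ K]

/-- `x` is in the domain of the generator and `y` is its image: the right derivative of the orbit
of `x` at zero is `y`. -/
def IsGen (T : ℝ → K →L[ℂ] K) (x y : K) : Prop :=
  Tendsto (fun h : ℝ => h⁻¹ • (T h x - x)) (𝓝[>] 0) (𝓝 y)

/-- `R` is the bounded inverse of `z - A`, `A` the generator. -/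
def IsRes (T : ℝ → K →L[ℂ] K) (z : ℂ) (R : K →L[ℂ] K) : Prop :=
  (∀ y, IsGen T (R y) (z • R y - y)) ∧ ∀ x y, IsGen T x y → R (z • x - y) = x

variable {T : ℝ → K →L[ℂ] K}

lemma res_identity {z w : ℂ} {R R' : K →L[ℂ] K} (h : IsRes T z R) (h' : IsRes T w R') (y : K) :
    R' y = R y + (z - w) • R (R' y) := by
  have h1 := h.2 _ _ (h'.1 y)
  have h2 : z • R' y - (w • R' y - y) = y + (z - w) • R' y := by
    rw [sub_smul]; abel
  rw [h2, map_add, map_smul] at h1
  exact h1.symm

lemma norm_cexp (z : ℂ) (t : ℝ) : ‖Complex.exp (-(z * t))‖ = Real.exp (-(z.re * t)) := by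
  rw [Complex.norm_exp]
  simp

lemma lap_bound (M v : ℝ) (hM : ∀ t, 0 ≤ t → ‖T t‖ ≤ M * Real.exp (v * t))
    (z : ℂ) (x : K) (t : ℝ) (ht : 0 ≤ t) :
    ‖Complex.exp (-(z * t)) • T t x‖ ≤ M * ‖x‖ * Real.exp (-(z.re - v) * t) := by
  rw [norm_smul, norm_cexp]
  have h1 : ‖T t x‖ ≤ M * Real.exp (v * t) * ‖x‖ :=
    ((T t).le_opNorm x).trans (mul_le_mul_of_nonneg_right (hM t ht) (norm_nonneg _))
  calc Real.exp (-(z.re * t)) * ‖T t x‖ ≤ Real.exp (-(z.re * t)) * (M * Real.exp (v * t) * ‖x‖) := by
        gcongr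
    _ = M * ‖x‖ * (Real.exp (-(z.re * t)) * Real.exp (v * t)) := by ring
    _ = _ := by
      rw [← Real.exp_add]
      congr 2
      ring

lemma lap_cont (h : IsC0Group T) (z : ℂ) (x : K) :
    Continuous fun t : ℝ => Complex.exp (-(z * t)) • T t x := by
  have h1 : Continuous fun t : ℝ => Complex.exp (-(z * t)) := by fun_prop
  exact h1.smul (h.cont x)

lemma lap_integrable (h : IsC0Group T) (M v : ℝ)
    (hM : ∀ t, 0 ≤ t → ‖T t‖ ≤ M * Real.exp (v * t))
    (z : ℂ) (hz : v < z.re) (x : K) :
    IntegrableOn (fun t : ℝ => Complex.exp (-(z * t)) • T t x) (Ioi 0) := by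
  have h1 : IntegrableOn (fun t : ℝ => M * ‖x‖ * Real.exp (-(z.re - v) * t)) (Ioi 0) :=
    (exp_neg_integrableOn_Ioi 0 (by linarith)).const_mul _
  refine Integrable.mono' h1 (lap_cont h z x).aestronglyMeasurable ?_
  filter_upwards [ae_restrict_mem measurableSet_Ioi] with t ht
  exact lap_bound M v hM z x t (le_of_lt ht)

variable [CompleteSpace K]

/-- The Laplace transform is the resolvent. -/
theorem exists_res (h : IsC0Group T) (M v : ℝ)
    (hM : ∀ t, 0 ≤ t → ‖T t‖ ≤ M * Real.exp (v * t)) (z : ℂ) (hz : v < z.re) :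
    ∃ R : K →L[ℂ] K, (∀ x, R x = ∫ t in Ioi (0 : ℝ), Complex.exp (-(z * t)) • T t x) ∧
      IsRes T z R := by
  have hint := lap_integrable h M v hM z hz
  set R₀ : K →ₗ[ℂ] K :=
    { toFun := fun x => ∫ t in Ioi (0 : ℝ), Complex.exp (-(z * t)) • T t x
      map_add' := fun x y => by
        rw [← integral_add (hint x) (hint y)]
        simp only [map_add, smul_add]
      map_smul' := fun c x => by
        rw [RingHom.id_apply, ← integral_smul]
        congr 1
        ext t
        rw [map_smul, smul_comm] } with hR₀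
  set R : K →L[ℂ] K := R₀.mkContinuous
    (∫ t in Ioi (0 : ℝ), M * Real.exp (-(z.re - v) * t)) (by
      intro x
      have h1 : IntegrableOn (fun t : ℝ => M * ‖x‖ * Real.exp (-(z.re - v) * t)) (Ioi 0) :=
        (exp_neg_integrableOn_Ioi 0 (by linarith)).const_mul _
      have h2 : ‖∫ t in Ioi (0 : ℝ), Complex.exp (-(z * t)) • T t x‖ ≤
          ∫ t in Ioi (0 : ℝ), M * ‖x‖ * Real.exp (-(z.re - v) * t) := by
        refine norm_integral_le_of_norm_le h1 ?_
        filter_upwards [ae_restrict_mem measurableSet_Ioi] with t ht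
        exact lap_bound M v hM z x t (le_of_lt ht)
      refine h2.trans (le_of_eq ?_)
      rw [← integral_mul_const]
      congr 1
      ext t
      ring) with hR
  have hRa : ∀ x, R x = ∫ t in Ioi (0 : ℝ), Complex.exp (-(z * t)) • T t x := fun x => rfl
  refine ⟨R, hRa, ?_⟩
  -- commutation
  have hcomm : ∀ s x, T s (R x) = R (T s x) := by
    intro s x
    rw [hRa, hRa, ← (T s).integral_comp_comm (hint x)]
    congr 1
    ext t
    rw [map_smul, ← h.add_apply, ← h.add_apply, add_comm]
  have hgen : ∀ y, IsGen T (R y) (z • R y - y) := by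
    intro y
    set g : ℝ → K := fun t => Complex.exp (-(z * t)) • T t y with hg
    have hgc : Continuous g := lap_cont h z y
    have hg0 : g 0 = y := by simp [hg, h.zero]
    set Ψ : ℝ → K := fun s => Complex.exp (z * s) • (R y - ∫ t in (0 : ℝ)..s, g t) with hΨ
    have hΨd : HasDerivAt Ψ (z • R y - y) 0 := by
      have h1 : HasDerivAt (fun s : ℝ => Complex.exp (z * s)) (z : ℂ) 0 := by
        have h2 : HasDerivAt (fun s : ℝ => z * (s : ℂ)) z 0 := by
          simpa using (Complex.ofRealCLM.hasDerivAt (x := (0 : ℝ))).const_mul z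
        have h3 := h2.cexp
        simpa using h3
      have h4 : HasDerivAt (fun s : ℝ => R y - ∫ t in (0 : ℝ)..s, g t) (-(g 0)) 0 := by
        have h5 := intervalIntegral.integral_hasDerivAt_right
          (hgc.intervalIntegrable 0 0) (hgc.stronglyMeasurableAtFilter _ _)
          hgc.continuousAt
        have h6 := (hasDerivAt_const (0 : ℝ) (R y)).sub h5
        simpa using! h6
      have h7 := h1.smul h4
      rw [hg0] at h7
      convert! h7 using 1
      simp
      abel
    have hΨ0 : Ψ 0 = R y := by simp [hΨ]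
    have hΨh : ∀ s : ℝ, 0 < s → T s (R y) = Ψ s := by
      intro s hs
      have h1 : T s (R y) = ∫ t in Ioi (0 : ℝ), Complex.exp (z * s) • g (s + t) := by
        rw [hRa, ← (T s).integral_comp_comm (hint y)]
        congr 1
        ext t
        rw [map_smul, ← h.add_apply]
        show _ = Complex.exp (z * s) • (Complex.exp (-(z * ((s + t : ℝ) : ℂ))) • T (s + t) y)
        rw [smul_smul, ← Complex.exp_add]
        congr 2
        push_cast
        ring
      have h2 : ∫ t in Ioi (0 : ℝ), g (s + t) = ∫ t in Ioi s, g t := by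
        have h9 := (measurePreserving_add_left (volume : Measure ℝ) s).setIntegral_preimage_emb
          (measurableEmbedding_addLeft s) g (Ioi s)
        have h10 : (fun t : ℝ => s + t) ⁻¹' (Ioi s) = Ioi 0 := by
          ext t
          simp
        rw [h10] at h9
        exact h9
      have h3 : ∫ t in Ioi s, g t = R y - ∫ t in (0 : ℝ)..s, g t := by
        have h4 := intervalIntegral.integral_interval_add_Ioi (a := 0) (b := s) (f := g)
          (hint y) ((hint y).mono_set (Ioi_subset_Ioi hs.le))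
        rw [hRa, ← h4]
        abel
      rw [h1, integral_smul, h2, h3]
    have h8 := hΨd.tendsto_slope_zero_right
    unfold IsGen
    refine h8.congr' ?_
    filter_upwards [self_mem_nhdsWithin] with s hs
    rw [zero_add, hΨ0, hΨh s hs]
  refine ⟨hgen, fun x y hxy => ?_⟩
  have h1 : Tendsto (fun s : ℝ => R (s⁻¹ • (T s x - x))) (𝓝[>] 0) (𝓝 (R y)) :=
    (R.continuous.tendsto y).comp hxy
  have h2 : Tendsto (fun s : ℝ => s⁻¹ • (T s (R x) - R x)) (𝓝[>] 0) (𝓝 (z • R x - x)) := hgen x
  have h3 : (fun s : ℝ => R (s⁻¹ • (T s x - x))) = fun s : ℝ => s⁻¹ • (T s (R x) - R x) := by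
    ext s
    rw [hcomm, ← map_sub]
    exact R.map_smul_of_tower s⁻¹ _
  rw [h3] at h1
  have h4 := tendsto_nhds_unique h1 h2
  rw [map_sub, map_smul, h4]
  abel

end Pool.Agent.R853.GP
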