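import Pool.Agent.R853.GP.Energy
import Pool.Agent.R853.GP.Datko
import Pool.Agent.R853.GP.Cone

/-!
Positive groups on ordered Hilbert spaces: the growth bound is a spectral value.
-/

open Filter Topology MeasureTheory Set

namespace Pool.Agent.R853.GP

variable {K : Type*} [NormedAddCommGroup K] [InnerProductSpace ℂ K]

/-- The complex Hilbert space `K` is the complexification of its real subspace `H` (the inner
product is real on `H` and `K = H + i H`), and `P` is a closed, normal and generating cone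
in `H`. -/
structure IsOrdHilbert (H : Submodule ℝ K) (P : Set K) : Prop where
  real_inner : ∀ x ∈ H, ∀ y ∈ H, (inner ℂ x y).im = 0
  decomp : ∀ z : K, ∃ x ∈ H, ∃ y ∈ H, z = x + Complex.I • y
  sub : ∀ x ∈ P, x ∈ H
  zero : (0 : K) ∈ P
  add : ∀ x ∈ P, ∀ y ∈ P, x + y ∈ P
  smul : ∀ c : ℝ, 0 ≤ c → ∀ x ∈ P, c • x ∈ P
  closed : IsClosed P
  gen : ∀ x ∈ H, ∃ p ∈ P, ∃ q ∈ P, x = p - q
  normal : ∃ c : ℝ, ∀ x ∈ P, ∀ y ∈ P, y - x ∈ P → ‖x‖ ≤ c * ‖y‖

/-- The spectrum of the generator: all `z` for which `z - A` has no bounded inverse. -/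
def spec (T : ℝ → K →L[ℂ] K) : Set ℂ := {z | ¬ ∃ R, IsRes T z R}

variable {H : Submodule ℝ K} {P : Set K}

lemma IsOrdHilbert.norm_sq (hO : IsOrdHilbert H P) (x : K) (hx : x ∈ H) (y : K) (hy : y ∈ H) :
    ‖x + Complex.I • y‖ ^ 2 = ‖x‖ ^ 2 + ‖y‖ ^ 2 := by
  rw [@norm_add_sq ℂ, norm_smul, Complex.norm_I, one_mul, inner_smul_right]
  have h1 := hO.real_inner x hx y hy
  have h2 : RCLike.re (Complex.I * inner ℂ x y) = 0 := by
    show (Complex.I * inner ℂ x y).re = 0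
    rw [Complex.mul_re, h1]
    simp
  rw [h2]
  ring

lemma IsOrdHilbert.norm_le (hO : IsOrdHilbert H P) (x : K) (hx : x ∈ H) (y : K) (hy : y ∈ H) :
    ‖x‖ ≤ ‖x + Complex.I • y‖ ∧ ‖y‖ ≤ ‖x + Complex.I • y‖ := by
  have h1 := hO.norm_sq x hx y hy
  constructor
  · exact (pow_le_pow_iff_left₀ (norm_nonneg _) (norm_nonneg _) (two_ne_zero)).1
      (by rw [h1]; nlinarith [sq_nonneg ‖y‖])
  · exact (pow_le_pow_iff_left₀ (norm_nonneg _) (norm_nonneg _) (two_ne_zero)).1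
      (by rw [h1]; nlinarith [sq_nonneg ‖x‖])

lemma IsOrdHilbert.closedH (hO : IsOrdHilbert H P) : IsClosed (H : Set K) := by
  rw [← isSeqClosed_iff_isClosed]
  intro u z hu hz
  obtain ⟨x, hx, y, hy, rfl⟩ := hO.decomp z
  have h1 : ∀ n, ‖y‖ ≤ ‖x + Complex.I • y - u n‖ := by
    intro n
    have h2 := (hO.norm_le (x - u n) (H.sub_mem hx (hu n)) y hy).2
    have h3 : x - u n + Complex.I • y = x + Complex.I • y - u n := by abel
    rw [h3] at h2
    exact h2
  have h4 : Tendsto (fun n => ‖x + Complex.I • y - u n‖) atTop (𝓝 0) := by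
    have := (tendsto_const_nhds (x := x + Complex.I • y)).sub hz
    rw [sub_self] at this
    simpa using this.norm
  have h5 : ‖y‖ ≤ 0 := ge_of_tendsto' h4 h1
  have h6 : y = 0 := norm_le_zero_iff.1 h5
  rw [h6, smul_zero, add_zero]
  exact hx

variable [CompleteSpace K]

lemma IsOrdHilbert.bdd (hO : IsOrdHilbert H P) :
    ∃ M : ℝ, 0 < M ∧ ∀ x ∈ H, ∃ p ∈ P, ∃ q ∈ P, x = p - q ∧ ‖p‖ ≤ M * ‖x‖ ∧
      ‖q‖ ≤ M * ‖x‖ := by
  have hc : CompleteSpace H := hO.closedH.completeSpace_coe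
  obtain ⟨M, hM0, hM⟩ := bdd_decomp (X := H) {x : H | (x : K) ∈ P} hO.zero
    (fun x hx y hy => hO.add _ hx _ hy) (fun c hc x hx => hO.smul c hc _ hx)
    (hO.closed.preimage continuous_subtype_val) (by
      intro x
      obtain ⟨p, hp, q, hq, hpq⟩ := hO.gen x x.2
      exact ⟨⟨p, hO.sub p hp⟩, hp, ⟨q, hO.sub q hq⟩, hq, Subtype.ext hpq⟩)
  refine ⟨M, hM0, fun x hx => ?_⟩
  obtain ⟨p, hp, q, hq, h1, h2, h3⟩ := hM ⟨x, hx⟩
  exact ⟨p, hp, q, hq, congrArg Subtype.val h1, h2, h3⟩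

/-- Domination of oscillating integrals of cone-valued functions. -/
lemma IsOrdHilbert.dom (hO : IsOrdHilbert H P) (c : ℝ)
    (hc : ∀ x ∈ P, ∀ y ∈ P, y - x ∈ P → ‖x‖ ≤ c * ‖y‖)
    (p : ℝ → K) (hp : IntegrableOn p (Ioi 0)) (hpP : ∀ t, p t ∈ P) (g : ℝ → ℝ)
    (hg : Continuous g) (hg1 : ∀ t, |g t| ≤ 1) :
    ‖∫ t in Ioi (0 : ℝ), g t • p t‖ ≤ (2 * c + 1) * ‖∫ t in Ioi (0 : ℝ), p t‖ := by
  have hgp : IntegrableOn (fun t => g t • p t) (Ioi 0) := by
    refine Integrable.mono' hp.norm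
      (hg.aestronglyMeasurable.smul hp.aestronglyMeasurable) (Eventually.of_forall fun t => ?_)
    rw [norm_smul]
    exact mul_le_of_le_one_left (norm_nonneg _) (hg1 t)
  set U := ∫ t in Ioi (0 : ℝ), p t with hU
  set V := ∫ t in Ioi (0 : ℝ), g t • p t with hV
  have hcone : ∀ f : ℝ → K, IntegrableOn f (Ioi 0) → (∀ t, f t ∈ P) →
      ∫ t in Ioi (0 : ℝ), f t ∈ P := fun f hf hfP =>
    integral_mem_cone P hO.zero hO.add hO.smul hO.closed _ f hf (Eventually.of_forall hfP)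
  have hUP : U ∈ P := hcone p hp hpP
  have h1 : U + V ∈ P := by
    rw [hU, hV, ← integral_add hp hgp]
    refine hcone _ (hp.add hgp) fun t => ?_
    have : p t + g t • p t = (1 + g t) • p t := by rw [add_smul, one_smul]
    rw [this]
    exact hO.smul _ (by linarith [(abs_le.1 (hg1 t)).1]) _ (hpP t)
  have h2 : U - V ∈ P := by
    rw [hU, hV, ← integral_sub hp hgp]
    refine hcone _ (hp.sub hgp) fun t => ?_
    have : p t - g t • p t = (1 - g t) • p t := by rw [sub_smul, one_smul]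
    rw [this]
    exact hO.smul _ (by linarith [(abs_le.1 (hg1 t)).2]) _ (hpP t)
  have h3 : U + U ∈ P := hO.add _ hUP _ hUP
  have h4 := hc (U + V) h1 (U + U) h3 (by
    have : U + U - (U + V) = U - V := by abel
    rw [this]; exact h2)
  have h5 : ‖U + U‖ = 2 * ‖U‖ := by rw [← two_smul ℝ U, norm_smul]; simp
  rw [h5] at h4
  calc ‖V‖ = ‖(U + V) - U‖ := by rw [add_sub_cancel_left]
    _ ≤ ‖U + V‖ + ‖U‖ := norm_sub_le _ _
    _ ≤ _ := by linarith

/-- Domination of the resolvent on a vertical line by its value on the real axis. -/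
theorem IsOrdHilbert.res_bound (hO : IsOrdHilbert H P) {T : ℝ → K →L[ℂ] K} (h : IsC0Group T)
    (hpos : ∀ t, ∀ x ∈ P, T t x ∈ P) :
    ∃ Q : ℝ, 0 < Q ∧ ∀ (M v : ℝ), (∀ t, 0 ≤ t → ‖T t‖ ≤ M * Real.exp (v * t)) →
      ∀ a : ℝ, v < a → ∀ R₀ : K →L[ℂ] K,
      (∀ x, R₀ x = ∫ t in Ioi (0 : ℝ), Complex.exp (-((a : ℂ) * t)) • T t x) →
      ∀ (b : ℝ) (x : K), ‖∫ t in Ioi (0 : ℝ),
        Complex.exp (-(((a : ℂ) + (b : ℝ) * Complex.I) * t)) • T t x‖ ≤ Q * ‖R₀‖ * ‖x‖ := by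
  obtain ⟨c₀, hc₀⟩ := hO.normal
  obtain ⟨D, hD0, hD⟩ := hO.bdd
  set c : ℝ := max c₀ 0 with hcdef
  have hc0 : 0 ≤ c := le_max_right _ _
  have hc : ∀ x ∈ P, ∀ y ∈ P, y - x ∈ P → ‖x‖ ≤ c * ‖y‖ := by
    intro x hx y hy hxy
    refine (hc₀ x hx y hy hxy).trans ?_
    gcongr
    exact le_max_left _ _
  refine ⟨8 * D * (2 * c + 1), by positivity, fun M v hM a ha R₀ hR₀ b => ?_⟩
  set L : K → K := fun x => ∫ t in Ioi (0 : ℝ),
    Complex.exp (-(((a : ℂ) + (b : ℝ) * Complex.I) * t)) • T t x with hL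
  obtain ⟨R, hR, -⟩ := exists_res h M v hM ((a : ℂ) + (b : ℝ) * Complex.I) (by simpa using ha)
  have hLR : ∀ x, L x = R x := fun x => (hR x).symm
  -- on the cone
  have hcone : ∀ x ∈ P, ‖R x‖ ≤ 2 * ((2 * c + 1) * (‖R₀‖ * ‖x‖)) := by
    intro x hx
    set p : ℝ → K := fun t => Real.exp (-(a * t)) • T t x with hp
    have hpe : ∀ t : ℝ, Complex.exp (-((a : ℂ) * t)) • T t x = p t := by
      intro t
      rw [hp]
      show _ = Real.exp (-(a * t)) • T t x
      rw [← Complex.coe_smul]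
      push_cast
      rfl
    have hpi : IntegrableOn p (Ioi 0) := by
      have := lap_integrable h M v hM (a : ℂ) (by simpa using ha) x
      refine this.congr (Eventually.of_forall fun t => ?_)
      exact hpe t
    have hpP : ∀ t, p t ∈ P := fun t => hO.smul _ (Real.exp_pos _).le _ (hpos t x hx)
    have hpc : Continuous p := by
      have := h.cont x
      fun_prop
    have hint : ∫ t in Ioi (0 : ℝ), p t = R₀ x := by
      rw [hR₀]
      congr 1
      ext t
      exact (hpe t).symm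
    have h1 := hO.dom c hc p hpi hpP (fun t => Real.cos (b * t)) (by fun_prop)
      (fun t => Real.abs_cos_le_one _)
    have h2 := hO.dom c hc p hpi hpP (fun t => Real.sin (b * t)) (by fun_prop)
      (fun t => Real.abs_sin_le_one _)
    rw [hint] at h1 h2
    have hi1 : IntegrableOn (fun t => Real.cos (b * t) • p t) (Ioi 0) := by
      refine Integrable.mono' hpi.norm (by fun_prop) (Eventually.of_forall fun t => ?_)
      rw [norm_smul]
      exact mul_le_of_le_one_left (norm_nonneg _) (Real.abs_cos_le_one _)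
    have hi2 : IntegrableOn (fun t => Real.sin (b * t) • p t) (Ioi 0) := by
      refine Integrable.mono' hpi.norm (by fun_prop) (Eventually.of_forall fun t => ?_)
      rw [norm_smul]
      exact mul_le_of_le_one_left (norm_nonneg _) (Real.abs_sin_le_one _)
    have h3 : R x = (∫ t in Ioi (0 : ℝ), Real.cos (b * t) • p t) -
        Complex.I • ∫ t in Ioi (0 : ℝ), Real.sin (b * t) • p t := by
      have hi3 : IntegrableOn (fun t => Complex.I • Real.sin (b * t) • p t) (Ioi 0) :=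
        hi2.smul Complex.I
      rw [hR, ← integral_smul, ← integral_sub hi1 hi3]
      congr 1
      ext t
      rw [← hpe, ← Complex.coe_smul, ← Complex.coe_smul, smul_smul, smul_smul, smul_smul,
        ← sub_smul]
      congr 1
      have h4 : -(((a : ℂ) + (b : ℝ) * Complex.I) * t) =
          -((a : ℂ) * t) + ((-(b * t) : ℝ) : ℂ) * Complex.I := by
        push_cast
        ring
      rw [h4, Complex.exp_add, Complex.exp_mul_I, ← Complex.ofReal_cos, ← Complex.ofReal_sin,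
        Real.cos_neg, Real.sin_neg]
      push_cast
      ring
    have h5 : (2 * c + 1) * ‖R₀ x‖ ≤ (2 * c + 1) * (‖R₀‖ * ‖x‖) := by
      gcongr
      exact R₀.le_opNorm x
    calc ‖R x‖ ≤ ‖∫ t in Ioi (0 : ℝ), Real.cos (b * t) • p t‖ +
        ‖Complex.I • ∫ t in Ioi (0 : ℝ), Real.sin (b * t) • p t‖ := by
          rw [h3]; exact norm_sub_le _ _
      _ ≤ (2 * c + 1) * ‖R₀ x‖ + (2 * c + 1) * ‖R₀ x‖ := by
          rw [norm_smul, Complex.norm_I, one_mul]
          exact add_le_add h1 h2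
      _ ≤ _ := by linarith
  have hreal : ∀ x ∈ H, ‖R x‖ ≤ 4 * D * (2 * c + 1) * (‖R₀‖ * ‖x‖) := by
    intro x hx
    obtain ⟨p, hp, q, hq, hpq, hpn, hqn⟩ := hD x hx
    have h1 := hcone p hp
    have h2 := hcone q hq
    have h3 : ‖R₀‖ * ‖p‖ ≤ ‖R₀‖ * (D * ‖x‖) := by gcongr
    have h4 : ‖R₀‖ * ‖q‖ ≤ ‖R₀‖ * (D * ‖x‖) := by gcongr
    calc ‖R x‖ = ‖R p - R q‖ := by rw [hpq, map_sub]
      _ ≤ ‖R p‖ + ‖R q‖ := norm_sub_le _ _
      _ ≤ 2 * ((2 * c + 1) * (‖R₀‖ * (D * ‖x‖))) + 2 * ((2 * c + 1) * (‖R₀‖ * (D * ‖x‖))) := by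
          gcongr
          · exact h1.trans (by gcongr)
          · exact h2.trans (by gcongr)
      _ = _ := by ring
  intro z
  have hz : ‖R z‖ ≤ 8 * D * (2 * c + 1) * ‖R₀‖ * ‖z‖ := by
    obtain ⟨x, hx, y, hy, hxy⟩ := hO.decomp z
    obtain ⟨h1, h2⟩ := hO.norm_le x hx y hy
    rw [← hxy] at h1 h2
    have h3 := hreal x hx
    have h4 := hreal y hy
    have h5 : ‖R₀‖ * ‖x‖ ≤ ‖R₀‖ * ‖z‖ := by gcongr
    have h6 : ‖R₀‖ * ‖y‖ ≤ ‖R₀‖ * ‖z‖ := by gcongr
    calc ‖R z‖ = ‖R x + Complex.I • R y‖ := by rw [hxy, map_add, map_smul]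
      _ ≤ ‖R x‖ + ‖Complex.I • R y‖ := norm_add_le _ _
      _ ≤ 4 * D * (2 * c + 1) * (‖R₀‖ * ‖z‖) + 4 * D * (2 * c + 1) * (‖R₀‖ * ‖z‖) := by
          rw [norm_smul, Complex.norm_I, one_mul]
          gcongr
          · exact h3.trans (by gcongr)
          · exact h4.trans (by gcongr)
      _ = _ := by ring
  have h7 : L z = R z := hLR z
  calc ‖L z‖ = ‖R z‖ := by rw [h7]
    _ ≤ _ := hz

/-- The growth bound of a positive group is a spectral value, and it bounds the spectrum. -/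
theorem main (hO : IsOrdHilbert H P) {T : ℝ → K →L[ℂ] K} (h : IsC0Group T) [Nontrivial K]
    (hpos : ∀ t, ∀ x ∈ P, T t x ∈ P) :
    ∃ w : ℝ, Tendsto (fun t : ℝ => t⁻¹ * Real.log ‖T t‖) atTop (𝓝 w) ∧
      (w : ℂ) ∈ spec T ∧ ∀ z ∈ spec T, z.re ≤ w := by
  obtain ⟨w, hw⟩ := h.growth
  refine ⟨w, hw, ?_, ?_⟩
  · rintro ⟨R₀, hR₀⟩
    obtain ⟨Q, hQ0, hQ⟩ := hO.res_bound h hpos
    set δ : ℝ := 1 / (2 * (‖R₀‖ + 1)) with hδ
    have hδ0 : 0 < δ := by positivity
    have hδR : δ * ‖R₀‖ ≤ 1 / 2 := by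
      rw [hδ, div_mul_eq_mul_div, one_mul, div_le_div_iff₀ (by positivity) (by norm_num)]
      linarith [norm_nonneg R₀]
    obtain ⟨M₁, hM₁0, hM₁⟩ := h.upper hw (v := w + δ / 2) (by linarith)
    obtain ⟨D, hD0, hD⟩ := energy h M₁ (w + δ / 2) hM₁ (w + δ) (by linarith)
    set C : ℝ := 1 + δ * (Q * (2 * ‖R₀‖)) with hC
    have hC0 : 0 < C := by positivity
    refine datko h hw (4 * (C ^ 2 * D)) (by positivity) fun x N hN => ?_
    -- choose `a` close to `w`
    set η : ℝ := min δ (1 / (2 * (N + 1))) with hη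
    have hη0 : 0 < η := lt_min hδ0 (by positivity)
    have hηδ : η ≤ δ := min_le_left _ _
    have hηN : η * N ≤ 1 / 2 := by
      have h1 : η ≤ 1 / (2 * (N + 1)) := min_le_right _ _
      calc η * N ≤ 1 / (2 * (N + 1)) * N := by gcongr
        _ ≤ 1 / 2 := by
          rw [div_mul_eq_mul_div, one_mul, div_le_div_iff₀ (by positivity) (by norm_num)]
          linarith
    set a : ℝ := w + η with ha
    obtain ⟨M, hM0, hM⟩ := h.upper hw (v := w + η / 2) (by linarith)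
    obtain ⟨Ra, hRa, hRares⟩ := exists_res h M (w + η / 2) hM (a : ℂ) (by
      rw [Complex.ofReal_re]; linarith)
    have hRan : ‖Ra‖ ≤ 2 * ‖R₀‖ := by
      refine Ra.opNorm_le_bound (by positivity) fun y => ?_
      have h1 := res_identity hR₀ hRares y
      have h2 : ‖((w : ℂ) - (a : ℂ)) • R₀ (Ra y)‖ ≤ (1 / 2) * ‖Ra y‖ := by
        rw [norm_smul]
        have h3 : ‖(w : ℂ) - (a : ℂ)‖ = η := by
          rw [ha, ← Complex.ofReal_sub, Complex.norm_real, Real.norm_eq_abs]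
          have : w - (w + η) = -η := by ring
          rw [this, abs_neg, abs_of_pos hη0]
        rw [h3]
        calc η * ‖R₀ (Ra y)‖ ≤ δ * (‖R₀‖ * ‖Ra y‖) := by
              gcongr
              exact R₀.le_opNorm _
          _ = (δ * ‖R₀‖) * ‖Ra y‖ := by ring
          _ ≤ _ := by gcongr
      have h4 : ‖Ra y‖ ≤ ‖R₀‖ * ‖y‖ + (1 / 2) * ‖Ra y‖ := by
        calc ‖Ra y‖ = ‖R₀ y + ((w : ℂ) - (a : ℂ)) • R₀ (Ra y)‖ := by rw [← h1]
          _ ≤ ‖R₀ y‖ + ‖((w : ℂ) - (a : ℂ)) • R₀ (Ra y)‖ := norm_add_le _ _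
          _ ≤ _ := add_le_add (R₀.le_opNorm _) h2
      linarith
    have hb := hQ M (w + η / 2) hM a (by linarith) Ra hRa
    have hcomp : ∀ b : ℝ, ‖∫ t in Ioi (0 : ℝ),
        Complex.exp (-(((a : ℂ) + (b : ℝ) * Complex.I) * t)) • T t x‖ ≤
        C * ‖∫ t in Ioi (0 : ℝ),
          Complex.exp (-((((w + δ : ℝ) : ℂ) + (b : ℝ) * Complex.I) * t)) • T t x‖ := by
      intro b
      obtain ⟨R1, hR1, hR1r⟩ := exists_res h M (w + η / 2) hM ((a : ℂ) + (b : ℝ) * Complex.I)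
        (by simp; linarith)
      obtain ⟨R2, hR2, hR2r⟩ := exists_res h M (w + η / 2) hM
        (((w + δ : ℝ) : ℂ) + (b : ℝ) * Complex.I) (by simp; linarith)
      rw [← hR1, ← hR2]
      have h1 := res_identity hR1r hR2r x
      have h2 : ((a : ℂ) + (b : ℝ) * Complex.I - (((w + δ : ℝ) : ℂ) + (b : ℝ) * Complex.I)) =
          ((η - δ : ℝ) : ℂ) := by
        rw [ha]
        push_cast
        ring
      rw [h2] at h1
      have h3 : R1 x = R2 x - ((η - δ : ℝ) : ℂ) • R1 (R2 x) := by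
        rw [eq_sub_iff_add_eq]
        exact h1.symm
      have h4 := hb b (R2 x)
      rw [← hR1] at h4
      have h5 : ‖((η - δ : ℝ) : ℂ)‖ ≤ δ := by
        rw [Complex.norm_real, Real.norm_eq_abs, abs_le]
        constructor <;> linarith
      calc ‖R1 x‖ ≤ ‖R2 x‖ + ‖((η - δ : ℝ) : ℂ) • R1 (R2 x)‖ := by
            rw [h3]; exact norm_sub_le _ _
        _ ≤ ‖R2 x‖ + δ * (Q * (2 * ‖R₀‖) * ‖R2 x‖) := by
            rw [norm_smul]
            gcongr
            refine h4.trans ?_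
            gcongr
        _ = _ := by rw [hC]; ring
    have h6 := hD M (w + η / 2) hM a C (by linarith) (by linarith) x hcomp N hN
    have hcont : ∀ r : ℝ, Continuous fun t : ℝ => (Real.exp (-(r * t)) * ‖T t x‖) ^ 2 := by
      intro r
      have := h.cont x
      fun_prop
    have h7 : ∫ t in (0 : ℝ)..N, (Real.exp (-(w * t)) * ‖T t x‖) ^ 2 ≤
        ∫ t in (0 : ℝ)..N, 4 * (Real.exp (-(a * t)) * ‖T t x‖) ^ 2 := by
      apply intervalIntegral.integral_mono_on hN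
      · exact (hcont w).intervalIntegrable _ _
      · exact ((hcont a).const_mul 4).intervalIntegrable _ _
      · intro t ht
        have h8 : Real.exp (-(w * t)) ≤ 2 * Real.exp (-(a * t)) := by
          have h9 : -(w * t) = η * t + -(a * t) := by rw [ha]; ring
          rw [h9, Real.exp_add]
          have h10 : Real.exp (η * t) ≤ 2 := by
            have h11 : η * t ≤ 1 / 2 := by
              calc η * t ≤ η * N := by gcongr; exact ht.2
                _ ≤ _ := hηN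
            have h12 : Real.exp (η * t) ≤ Real.exp (Real.log 2) :=
              Real.exp_le_exp.2 (h11.trans (by linarith [Real.log_two_gt_d9]))
            rwa [Real.exp_log (by norm_num)] at h12
          gcongr
        calc (Real.exp (-(w * t)) * ‖T t x‖) ^ 2
            ≤ (2 * Real.exp (-(a * t)) * ‖T t x‖) ^ 2 := by gcongr
          _ = _ := by ring
    rw [intervalIntegral.integral_const_mul] at h7
    calc _ ≤ 4 * ∫ t in (0 : ℝ)..N, (Real.exp (-(a * t)) * ‖T t x‖) ^ 2 := h7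
      _ ≤ 4 * (C ^ 2 * D * ‖x‖ ^ 2) := by gcongr
      _ = _ := by ring
  · intro z hz
    by_contra hcon
    push Not at hcon
    apply hz
    obtain ⟨M, hM0, hM⟩ := h.upper hw (v := (w + z.re) / 2) (by linarith)
    obtain ⟨R, -, hR⟩ := exists_res h M ((w + z.re) / 2) hM z (by linarith)
    exact ⟨R, hR⟩

end Pool.Agent.R853.GP
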